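import Mathlib
import Pool.Agent.Helper94.Tarski.Indic

set_option autoImplicit false

namespace Pool.Agent.Results.MP_70d4a1_al.NotMinimalUnderLaw

/-- For a nontrivial finitely generated left-orderable group satisfying a nontrivial law there are
two left orders and one element that is positive for the second and for no conjugate of the first;
so the conjugation action on the space of left orders is not minimal. -/
theorem result :
    ∀ (G : Type) [Group G], Group.FG G → Nontrivial G →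
      (∃ P : Set G, (∀ a ∈ P, ∀ b ∈ P, a * b ∈ P) ∧ (1 : G) ∉ P ∧
          (∀ a : G, a ≠ 1 → (a ∈ P ∨ a⁻¹ ∈ P)) ∧ (∀ a ∈ P, a⁻¹ ∉ P)) →
      (∃ (r : ℕ) (w : FreeGroup (Fin r)), w ≠ 1 ∧ ∀ f : Fin r → G, FreeGroup.lift f w = 1) →
      ∃ P Q : Set G,
        ((∀ a ∈ P, ∀ b ∈ P, a * b ∈ P) ∧ (1 : G) ∉ P ∧
          (∀ a : G, a ≠ 1 → (a ∈ P ∨ a⁻¹ ∈ P)) ∧ (∀ a ∈ P, a⁻¹ ∉ P)) ∧
        ((∀ a ∈ Q, ∀ b ∈ Q, a * b ∈ Q) ∧ (1 : G) ∉ Q ∧
          (∀ a : G, a ≠ 1 → (a ∈ Q ∨ a⁻¹ ∈ Q)) ∧ (∀ a ∈ Q, a⁻¹ ∉ Q)) ∧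
        ∃ t ∈ Q, ∀ g : G, g * t * g⁻¹ ∉ P := by
  classical
  rintro G _ hfg _ ⟨P, hP1, hP2, hP3, hP4⟩ ⟨r, w, hw, hlaw⟩
  obtain ⟨φ, hφ⟩ := Pool.Agent.Helper94.Tarski.surj_of_law hfg (fun a b => b * a⁻¹ ∈ P)
    (by intro a h; rw [mul_inv_cancel] at h; exact hP2 h)
    (by
      intro a b c h1 h2
      have := hP1 _ h2 _ h1
      have e : c * b⁻¹ * (b * a⁻¹) = c * a⁻¹ := by group
      rwa [e] at this)
    (by
      intro a b
      by_cases hab : b * a⁻¹ = 1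
      · right; left
        exact (mul_inv_eq_one.1 hab).symm
      · rcases hP3 _ hab with h | h
        · exact Or.inl h
        · right; right
          have e : (b * a⁻¹)⁻¹ = a * b⁻¹ := by group
          rwa [e] at h)
    (by
      intro a b c h
      have e : b * c * (a * c)⁻¹ = b * a⁻¹ := by group
      rw [e]; exact h)
    r w hw hlaw
  -- a cone from a homomorphism to `ℤ` and the given cone
  have cone : ∀ ψ : G →* Multiplicative ℤ,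
      (∀ a ∈ {x : G | 0 < (ψ x).toAdd ∨ ((ψ x).toAdd = 0 ∧ x ∈ P)},
        ∀ b ∈ {x : G | 0 < (ψ x).toAdd ∨ ((ψ x).toAdd = 0 ∧ x ∈ P)},
          a * b ∈ {x : G | 0 < (ψ x).toAdd ∨ ((ψ x).toAdd = 0 ∧ x ∈ P)}) ∧
      (1 : G) ∉ {x : G | 0 < (ψ x).toAdd ∨ ((ψ x).toAdd = 0 ∧ x ∈ P)} ∧
      (∀ a : G, a ≠ 1 → (a ∈ {x : G | 0 < (ψ x).toAdd ∨ ((ψ x).toAdd = 0 ∧ x ∈ P)} ∨
        a⁻¹ ∈ {x : G | 0 < (ψ x).toAdd ∨ ((ψ x).toAdd = 0 ∧ x ∈ P)})) ∧
      (∀ a ∈ {x : G | 0 < (ψ x).toAdd ∨ ((ψ x).toAdd = 0 ∧ x ∈ P)},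
        a⁻¹ ∉ {x : G | 0 < (ψ x).toAdd ∨ ((ψ x).toAdd = 0 ∧ x ∈ P)}) := by
    intro ψ
    refine ⟨?_, ?_, ?_, ?_⟩
    · rintro a ha b hb
      simp only [Set.mem_setOf_eq, map_mul, toAdd_mul] at ha hb ⊢
      rcases ha with h1 | ⟨h1, h2⟩ <;> rcases hb with h3 | ⟨h3, h4⟩
      · left; omega
      · left; omega
      · left; omega
      · right; exact ⟨by omega, hP1 a h2 b h4⟩
    · simp only [Set.mem_setOf_eq, map_one, toAdd_one, lt_irrefl, true_and, false_or]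
      exact hP2
    · intro a ha
      simp only [Set.mem_setOf_eq, map_inv, toAdd_inv]
      rcases lt_trichotomy (ψ a).toAdd 0 with h | h | h
      · right; left; omega
      · rcases hP3 a ha with h2 | h2
        · exact Or.inl (Or.inr ⟨h, h2⟩)
        · exact Or.inr (Or.inr ⟨by omega, h2⟩)
      · exact Or.inl (Or.inl h)
    · intro a ha
      simp only [Set.mem_setOf_eq, map_inv, toAdd_inv] at ha ⊢
      rintro (h3 | ⟨h3, h4⟩)
      · rcases ha with h1 | ⟨h1, h2⟩ <;> omega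
      · rcases ha with h1 | ⟨h1, h2⟩
        · omega
        · exact hP4 a h2 h4
  obtain ⟨t, ht⟩ := hφ (Multiplicative.ofAdd 1)
  refine ⟨{x : G | 0 < (φ⁻¹ x).toAdd ∨ ((φ⁻¹ x).toAdd = 0 ∧ x ∈ P)},
    {x : G | 0 < (φ x).toAdd ∨ ((φ x).toAdd = 0 ∧ x ∈ P)}, cone φ⁻¹, cone φ, t, ?_, ?_⟩
  · left
    rw [ht]; simp
  · intro g h
    simp only [Set.mem_setOf_eq, MonoidHom.inv_apply, map_mul, map_inv, toAdd_inv, toAdd_mul] at h
    rw [ht, toAdd_ofAdd] at h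
    rcases h with h | ⟨h, _⟩ <;> omega

end Pool.Agent.Results.MP_70d4a1_al.NotMinimalUnderLaw
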